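import Pool.Agent.Helper95.HS.Stmts
import Pool.Agent.Helper10.PW.LIM

/-! HS, row LGB: dominated convergence for the squared gradient of the cut off coordinates. -/

set_option autoImplicit false

namespace Pool.Agent.Helper83.HS

open MeasureTheory Filter Pool.Agent.Helper95.PW Pool.Agent.Helper95.HS

theorem grd_in (m : Fin 3) (R : ℝ) (h : ∀ y, nr y ≤ R → gm m R y = y m) (y : R3)
    (hy : nr y < R) : grd (gm m R) y = 1 := by
  have he := LIM_ev m R h y hy
  unfold grd
  simp only [(LIM_pd _ m _ _ he).eq_of_nhds]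
  simp

theorem LGB (hCUT : ST_CUT) : ST_LGB := by
  intro n φ m hp
  obtain ⟨K, hK1, hK, -⟩ := hCUT
  have hK0 : 0 ≤ K := by linarith
  have hR : ∀ L : ℕ, (0 : ℝ) < (L : ℝ) + 1 := fun L => by positivity
  have hgb : ∀ (L : ℕ) (y : R3), |grd (gm m ((L : ℝ) + 1)) y| ≤ 3 * K ^ 2 := by
    intro L y
    unfold grd
    rw [abs_of_nonneg (Finset.sum_nonneg fun i _ => sq_nonneg _)]
    refine (Finset.sum_le_card_nsmul _ _ (K ^ 2) fun i _ => ?_).trans (by simp)
    rw [← sq_abs]
    exact pow_le_pow_left₀ (abs_nonneg _) ((hK m _ (hR L)).1.d1 i y) 2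
  have hgc : ∀ L : ℕ, Continuous (grd (gm m ((L : ℝ) + 1))) := by
    intro L
    unfold grd
    refine continuous_finsetSum _ fun i _ => ?_
    exact ((LIM_sm i _ (hK m _ (hR L)).1.sm).continuous).pow 2
  unfold one Pool.Agent.Helper95.PW.sq
  rw [Finset.mul_sum]
  refine tendsto_finsetSum _ fun s _ => ?_
  rw [← integral_const_mul]
  refine tendsto_integral_of_dominated_convergence
    (fun x => ((n : ℝ) * (3 * K ^ 2)) * φ s x ^ 2) (fun L => ?_) ?_ (fun L => ?_) ?_
  · refine AEStronglyMeasurable.mul ?_ ((hp s).1.pow 2)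
    refine Finset.aestronglyMeasurable_fun_sum _ fun k _ => ?_
    exact ((hgc L).comp (continuous_apply k)).aestronglyMeasurable
  · exact (hp s).integrable_sq.const_mul _
  · refine Eventually.of_forall fun x => ?_
    rw [Real.norm_eq_abs, abs_mul, abs_of_nonneg (sq_nonneg (φ s x))]
    refine mul_le_mul_of_nonneg_right ?_ (sq_nonneg _)
    refine (Finset.abs_sum_le_sum_abs _ _).trans ?_
    refine (Finset.sum_le_card_nsmul _ _ (3 * K ^ 2) fun k _ => hgb L (x k)).trans (by simp)
  · refine Eventually.of_forall fun x => ?_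
    refine (tendsto_congr' ?_).mpr tendsto_const_nhds
    have hev : ∀ᶠ L : ℕ in atTop, ∀ k, nr (x k) < (L : ℝ) + 1 := by
      rw [eventually_all]
      intro k
      obtain ⟨N, hN⟩ := exists_nat_gt (nr (x k))
      filter_upwards [eventually_ge_atTop N] with L hL
      have : (N : ℝ) ≤ L := by exact_mod_cast hL
      linarith
    filter_upwards [hev] with L hL
    have h1 : ∑ k, grd (gm m ((L : ℝ) + 1)) (x k) = n := by
      rw [Finset.sum_congr rfl fun k _ => grd_in m _ (hK m _ (hR L)).2.1 (x k) (hL k)]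
      simp
    rw [h1]

end Pool.Agent.Helper83.HS
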